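import Pool.Agent.Helper79.SA.Goals

/-!
# MP_4137ca_lc: countable unions in the sigma-algebra (packet SVU)
-/

open MeasureTheory Filter Topology Set
open scoped Cardinal

noncomputable section

namespace SA.PkSVU

open Pool.Agent.Helper97.Ku SA

variable {P : Type} [Preorder P]

theorem mem_iffV {a b : RO P} {p : P} :
    p ∈ NU.iffV a b ↔ ∀ q, q ≤ p → (q ∈ a ↔ q ∈ b) := by
  unfold NU.iffV
  rw [RO.mem_inf, RO.mem_himp, RO.mem_himp]
  exact ⟨fun h q hq => ⟨h.1 q hq, h.2 q hq⟩, fun h => ⟨fun q hq => (h q hq).1,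
    fun q hq => (h q hq).2⟩⟩

theorem iffV_trans {a b c : RO P} {p : P} (h : p ∈ NU.iffV a b) (k : p ∈ NU.iffV b c) :
    p ∈ NU.iffV a c :=
  mem_iffV.2 fun q hq => (mem_iffV.1 h q hq).trans (mem_iffV.1 k q hq)

theorem iffV_iSup {a b : ℕ → RO P} {p : P} (h : ∀ n, p ∈ NU.iffV (a n) (b n)) :
    p ∈ NU.iffV (⨆ n, a n) (⨆ n, b n) := by
  refine mem_iffV.2 fun q hq => ?_
  rw [RO.mem_iSup, RO.mem_iSup]
  constructor
  · intro h1 r hr
    obtain ⟨s, hs, n, hn⟩ := h1 r hr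
    exact ⟨s, hs, n, (mem_iffV.1 (h n) s ((hs.trans hr).trans hq)).1 hn⟩
  · intro h1 r hr
    obtain ⟨s, hs, n, hn⟩ := h1 r hr
    exact ⟨s, hs, n, (mem_iffV.1 (h n) s ((hs.trans hr).trans hq)).2 hn⟩

/-- The packet SVU. -/
theorem svu (eh : G_EH) (fup : G_FUP) (pcs : G_PCS) : G_SVU := by
  classical
  intro K _ w p d v
  obtain ⟨eh1, eh2, eh3, eh4, eh5, eh6, eh7, eh8, eh9, eh10⟩ := eh K
  set X : K → Set ((K → Rl) × (ℕ → Rl)) → Set (K → Rl) :=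
    fun ξ B => {z | (z, fun k => z (d.io ξ k)) ∈ B} with hX
  set V : ℕ → Set K → Set ((K → Rl) × (ℕ → Rl)) → RO (Cnd K) := fun n b B =>
    ⨅ ξ : K, ⨅ _ : ξ ∈ d.Sb b, (pri (d.q ξ) ⇨ NU.iffV (v n ξ) (ee (X ξ B))) with hV
  have hXm : ∀ ξ B, MeasurableSet B → MeasurableSet (X ξ B) := by
    intro ξ B hB
    have hf : Measurable (fun z : K → Rl => (z, fun k => z (d.io ξ k))) :=
      measurable_id.prodMk (measurable_pi_lambda _ fun k => measurable_pi_apply _)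
    exact hf hB
  intro p0 hp0
  have hp1 := RO.mem_iInf.1 hp0
  refine RO.mem_iSup.2 fun p1 hp10 => ?_
  set D : ℕ → Set (Cnd K) := fun n =>
    {r | ∃ (b : Set K) (B : Set ((K → Rl) × (ℕ → Rl))), b.Countable ∧ MeasurableSet B ∧
      r ∈ V n b B} with hD
  have hD1 : ∀ n r, r ≤ p1 → ∃ r', r' ≤ r ∧ r' ∈ D n := by
    intro n r hr
    have h0 : r ∈ d.sv (v n) := RO.lower (hr.trans hp10) (hp1 n)
    obtain ⟨r1, hr1, b, h1⟩ := RO.mem_iSup.1 h0 r le_rfl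
    obtain ⟨r2, hr2, hb, h2⟩ := RO.mem_iSup.1 h1 r1 le_rfl
    obtain ⟨r3, hr3, B, h3⟩ := RO.mem_iSup.1 h2 r2 le_rfl
    obtain ⟨r4, hr4, hB, h4⟩ := RO.mem_iSup.1 h3 r3 le_rfl
    exact ⟨r4, ((hr4.trans hr3).trans hr2).trans hr1, b, B, hb, hB, h4⟩
  have hD2 : ∀ n r r', r ∈ D n → r' ≤ r → r' ∈ D n := by
    rintro n r r' ⟨b, B, hb, hB, h⟩ hr'
    exact ⟨b, B, hb, hB, RO.lower hr' h⟩
  obtain ⟨q, hq, F, k, hFk⟩ := fup K p1 D hD1 hD2
  have hch : ∀ n c, ∃ (b : Set K) (B : Set ((K → Rl) × (ℕ → Rl))), c ∈ D n →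
      b.Countable ∧ MeasurableSet B ∧ c ∈ V n b B := by
    intro n c
    by_cases hc : c ∈ D n
    · obtain ⟨b, B, h⟩ := hc
      exact ⟨b, B, fun _ => h⟩
    · exact ⟨∅, ∅, fun h => absurd h hc⟩
  choose b' B' hbB using hch
  set Pc : ℕ → Set (Cnd K) := fun n => {c | ∃ s, c = q * box (F n) (k n) s} with hPc
  have hPfin : ∀ n, (Pc n).Finite := fun n => (pcs K q (F n) (k n)).1
  have hPD : ∀ n, ∀ c ∈ Pc n, c ∈ D n := by
    rintro n c ⟨s, rfl⟩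
    exact hFk n s
  set b : Set K := ⋃ n, ⋃ c ∈ Pc n, b' n c with hb
  set B : Set ((K → Rl) × (ℕ → Rl)) :=
    ⋃ n, ⋃ c ∈ Pc n, ((Prod.fst ⁻¹' c.rg) ∩ B' n c) with hB
  have hrg : ∀ c : Cnd K, MeasurableSet c.rg := fun c => (pcs K c ∅ 0).2.2.2.2
  have hbc : b.Countable := by
    refine countable_iUnion fun n => ?_
    exact (hPfin n).countable.biUnion fun c hc => (hbB n c (hPD n c hc)).1
  have hBm : MeasurableSet B := by
    refine MeasurableSet.iUnion fun n => ?_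
    refine MeasurableSet.biUnion (hPfin n).countable fun c hc => ?_
    exact (measurable_fst (hrg c)).inter (hbB n c (hPD n c hc)).2.1
  refine ⟨q, hq, b, ?_⟩
  have key : q ∈ ⨅ ξ : K, ⨅ _ : ξ ∈ d.Sb b,
      (pri (d.q ξ) ⇨ NU.iffV (⨆ n, v n ξ) (ee {z | (z, fun k => z (d.io ξ k)) ∈ B})) := by
    refine RO.mem_iInf.2 fun ξ => RO.mem_iInf.2 fun hξ => ?_
    have hξ' : ∀ n, ∀ c ∈ Pc n, ξ ∈ d.Sb (b' n c) := by
      intro n c hc
      refine ⟨hξ.1, fun j hj => hξ.2 j ?_⟩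
      exact mem_iUnion.2 ⟨n, mem_biUnion hc hj⟩
    set E : ℕ → Set (K → Rl) := fun n => ⋃ c ∈ Pc n, (c.rg ∩ X ξ (B' n c)) with hE
    have hEm : ∀ n, MeasurableSet (E n) := fun n =>
      MeasurableSet.biUnion (hPfin n).countable fun c hc =>
        (hrg c).inter (hXm ξ _ (hbB n c (hPD n c hc)).2.1)
    have hXE : X ξ B = ⋃ n, E n := by
      ext z
      simp only [hX, hB, hE, mem_ofPred_eq, mem_iUnion, mem_inter_iff, mem_preimage, exists_prop]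
    have hee : (ee (X ξ B) : RO (Cnd K)) = ⨆ n, ee (E n) := by
      rw [hXE]
      exact eh10 ℕ E hEm
    have hpc : ∀ n, q ∈ pri (d.q ξ) ⇨ NU.iffV (v n ξ) (ee (E n)) := by
      intro n
      refine (pcs K q (F n) (k n)).2.2.2.1 _ fun s => ?_
      set c := q * box (F n) (k n) s with hc
      have hcP : c ∈ Pc n := ⟨s, rfl⟩
      have h1 : c ∈ V n (b' n c) (B' n c) := (hbB n c (hPD n c hcP)).2.2
      have h2 : c ∈ pri (d.q ξ) ⇨ NU.iffV (v n ξ) (ee (X ξ (B' n c))) :=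
        RO.mem_iInf.1 (RO.mem_iInf.1 h1 ξ) (hξ' n c hcP)
      have h3 : c ∈ NU.iffV (ee (X ξ (B' n c)) : RO (Cnd K)) (ee (E n)) := by
        refine eh4 c _ _ fun z hz => ?_
        constructor
        · intro h
          exact mem_biUnion hcP ⟨hz, h⟩
        · intro h
          obtain ⟨c', hc', hz', hzX⟩ := mem_iUnion₂.1 h
          obtain ⟨s', rfl⟩ := hc'
          have hcc : q * box (F n) (k n) s' = c :=
            (pcs K q (F n) (k n)).2.2.1 s' s z hz' hz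
          rwa [hcc] at hzX
      exact RO.mem_himp.2 fun r hr hrp => iffV_trans (RO.mem_himp.1 h2 r hr hrp)
        (RO.lower hr h3)
    refine RO.mem_himp.2 fun r hr hrp => ?_
    have h5 : r ∈ NU.iffV (⨆ n, v n ξ) (⨆ n, ee (E n)) :=
      iffV_iSup fun n => RO.mem_himp.1 (hpc n) r hr hrp
    rw [← hee] at h5
    exact h5
  refine RO.mem_iSup.2 fun q1 hq1 => ⟨q1, le_rfl, hbc, ?_⟩
  refine RO.mem_iSup.2 fun q2 hq2 => ⟨q2, le_rfl, B, ?_⟩
  refine RO.mem_iSup.2 fun q3 hq3 => ⟨q3, le_rfl, hBm, ?_⟩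
  exact RO.lower ((hq3.trans hq2).trans hq1) key

end SA.PkSVU
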